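import Pool.Agent.H21.MV.OrthoIdentity

/-!
Hand-in: OrthoIdentity
-/

namespace Pool.Agent.Results.MP_a65550_al.OrthoIdentity

open Pool.H21.MV.OrthoIdentity

universe u

/-- The identity `comm(p,x,y) ∧ (p' ∨ z) = comm(p,x,y) ∧ z` holds in `Bip([n])` for every `n`
(indeed in `Bip(E)` for every set `E`), and it is nontrivial: it fails in some ortholattice. -/
theorem result :
    (∀ (n : ℕ) (v : Fin 4 → Bip (Fin n)), lhs.eval v = rhs.eval v) ∧
    (∀ (E : Type) (v : Fin 4 → Bip E), lhs.eval v = rhs.eval v) ∧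
    (∃ (L : Type) (_ : Ortholattice L) (_ : Finite L) (v : Fin 4 → L),
      lhs.eval v ≠ rhs.eval v) :=
  Pool.H21.MV.OrthoIdentity.result

end Pool.Agent.Results.MP_a65550_al.OrthoIdentity
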